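import Pool.Agent.K4H76.LD.Main

/-!
# The list edge-colouring conjecture for the random graphs `G(n, p)`

For every `δ > 0`, the random graph `G(n, p)` satisfies the list edge-colouring conjecture with
probability tending to 1, uniformly over all `p` with `0 ≤ p ≤ 1 - δ`, and its list chromatic index
is its maximum degree. In particular (`p = 1 / 2`) almost all graphs satisfy the conjecture.
-/

set_option autoImplicit false

namespace Pool.Agent.Results.MP_2f9829_co.AllRandomGraphs

/-- The probability that the random graph `G(n, p)` has the property `P`: each of the pairs `e` of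
the `n` vertices is an edge with probability `p`, independently. -/
noncomputable def prob (n : ℕ) (p : ℝ) (P : SimpleGraph (Fin n) → Prop) : ℝ := by
  classical exact ∑ G : SimpleGraph (Fin n), if P G then
    (∏ e : {e : Sym2 (Fin n) // ¬ e.IsDiag}, if e.1 ∈ G.edgeSet then p else 1 - p) else 0

/-- The edges of `G` can be properly coloured from all lists of at least `k` colours. -/
def EdgeChoosable {V : Type} (G : SimpleGraph V) (k : ℕ) : Prop :=
  ∀ L : G.edgeSet → Finset ℕ, (∀ e, k ≤ (L e).card) →
    ∃ f : G.edgeSet → ℕ, (∀ e, f e ∈ L e) ∧ ∀ e e', G.lineGraph.Adj e e' → f e ≠ f e'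

/-- The list edge-colouring conjecture for the graph `G`: for every `k`, the edges can be properly
coloured with `k` colours if and only if they can be properly coloured from all lists of at least
`k` colours. -/
def ListEdge {V : Type} (G : SimpleGraph V) : Prop :=
  ∀ k : ℕ, G.lineGraph.Colorable k ↔ EdgeChoosable G k

/-- For all `δ, ε > 0`, all large `n` and all `p` with `0 ≤ p ≤ 1 - δ`, with probability at least
`1 - ε` the random graph `G(n, p)` satisfies the list edge-colouring conjecture, and lists of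
`Δ(G)` colours suffice. -/
theorem result : ∀ δ : ℝ, 0 < δ → ∀ ε : ℝ, 0 < ε → ∃ N : ℕ, ∀ n : ℕ, N ≤ n →
    ∀ p : ℝ, 0 ≤ p → p ≤ 1 - δ →
    1 - ε ≤ prob n p (fun G : SimpleGraph (Fin n) => ListEdge G ∧
      ∀ D : ℕ, (∀ v, (G.neighborSet v).ncard ≤ D) → EdgeChoosable G D) := by
  classical
  intro δ hδ ε hε
  obtain ⟨N, hN⟩ := Pool.Agent.K4H76.LD.main δ hδ ε hε
  refine ⟨max 1 N, ?_⟩
  intro n hn p hp0 hpδ
  have h1 := hN n ((le_max_right _ _).trans hn) p hp0 hpδ
  have h2 := Pool.Agent.K4H76.LR.prob_eq n p (fun G : SimpleGraph (Fin n) => ListEdge G ∧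
      ∀ D : ℕ, (∀ v, (G.neighborSet v).ncard ≤ D) → EdgeChoosable G D)
  have h3 : prob n p (fun G : SimpleGraph (Fin n) => ListEdge G ∧
      ∀ D : ℕ, (∀ v, (G.neighborSet v).ncard ≤ D) → EdgeChoosable G D) =
      Pool.Agent.K4H76.LR.Pr (Pool.Agent.K4H76.LR.wB (Pool.Agent.K4H76.LR.Ed n) p)
        (fun ω => ListEdge (Pool.Agent.K4H76.LR.Gr ω) ∧
          ∀ D : ℕ, (∀ v, ((Pool.Agent.K4H76.LR.Gr ω).neighborSet v).ncard ≤ D) →
            EdgeChoosable (Pool.Agent.K4H76.LR.Gr ω) D) := by
    rw [← h2]
    unfold prob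
    congr!
  rw [h3]
  refine h1.trans (Pool.Agent.K4H76.LR.Pr_mono
    (Pool.Agent.K4H76.LR.wB_wt p hp0 (by linarith)) ?_)
  intro ω hω
  exact Pool.Agent.K4H76.LR.concl ((le_max_left _ _).trans hn) _ hω

end Pool.Agent.Results.MP_2f9829_co.AllRandomGraphs
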