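import Pool.Agent.K4H93.CY.Cart

/-!
# The list edge colouring conjecture for a positive proportion of all cyclic covers

Let `H` be a `d`-regular multigraph with a free action of the group `ℤ` of the integers that has
finitely many orbits, and let `H_n` be the quotient by `n ℤ`; these are the `n`-fold cyclic covers
of `H_1`. Modulo every prime `p` the signed number of the edge colourings of `H_n` with `d` colours is
a periodic function of `n`, for all `n ≥ 1`, with a period prime to `p`; over the integers it satisfies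
the statement of the theorem of Skolem, Mahler and Lech. So if the signed number of one quotient is not
zero then the list edge colouring conjecture holds for a positive proportion of all quotients.
-/

set_option autoImplicit false

namespace Pool.Agent.Results.MP_2f9829_co.CyclicFamilies

/-- The list edge colouring conjecture for the single graph `G`, in the form of the frozen statement
`S07911`: for every `k`, the edges of `G` can be properly coloured with `k` colours if and only if
`G` has a proper edge colouring from every list assignment with lists of at least `k` colours. -/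
def ListEdgeConjectureFor {V : Type} (G : SimpleGraph V) : Prop :=
  ∀ k : ℕ, G.lineGraph.Colorable k ↔
    ∀ L : G.edgeSet → Finset ℕ, (∀ e, k ≤ (L e).card) →
      ∃ f : G.edgeSet → ℕ, (∀ e, f e ∈ L e) ∧
        ∀ e e', G.lineGraph.Adj e e' → f e ≠ f e'

/-- The conjecture holds for `H` and for all graphs isomorphic to a subgraph of `H` whose edges
cannot be properly coloured with `d - 1` colours. -/
def HoldsFor {V : Type} (H : SimpleGraph V) (d : ℕ) : Prop :=
  ListEdgeConjectureFor H ∧
    ∀ (W : Type) (G : SimpleGraph W) (φ : W → V), Function.Injective φ →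
      (∀ u v, G.Adj u v → H.Adj (φ u) (φ v)) → ¬ G.lineGraph.Colorable (d - 1) →
      ListEdgeConjectureFor G

/-- The sign of a map of `Fin d` to itself; it is `0` if the map is not a permutation. -/
noncomputable def mapSign {d : ℕ} (f : Fin d → Fin d) : ℤ :=
  open Classical in
  if h : Function.Bijective f then ((Equiv.Perm.sign (Equiv.ofBijective f h) : ℤˣ) : ℤ) else 0

/-- `inc v i` is the `i`-th edge at the vertex `v` of a finite `d`-regular multigraph with vertex set
`V` and edge set `E`. The proper colourings of the edges with `d` colours are counted with the product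
over all vertices `v` of the signs of the permutations which map `i` to the colour of `inc v i`. -/
noncomputable def signedNumber {V E : Type} {d : ℕ} (inc : V → Fin d → E) : ℤ :=
  ∑ᶠ x : E → Fin d, ∏ᶠ v, mapSign (fun i => x (inc v i))

/-- Periodic multigraphs and their quotients. Let `B` and `E` be finite sets. The vertices of the
periodic multigraph `H` are the pairs `(b, x)` and its edges the pairs `(e, y)` with `b ∈ B`, `e ∈ E`,
`x, y ∈ ℤ`; if `inc b i = (e, t)` then the `i`-th edge at `(b, x)` is `(e, x + t)`. The quotient `H_n`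
has the vertices `(b, x)` and the edges `(e, y)` with `x, y ∈ ℤ/n`. (`H_0 = H`, since `ℤ/0 = ℤ`.) -/
def quotientInc {B E : Type} {d : ℕ} (inc : B → Fin d → E × ℤ) (n : ℕ) :
    B × ZMod n → Fin d → E × ZMod n :=
  fun v i => ((inc v.1 i).1, v.2 + (((inc v.1 i).2 : ℤ) : ZMod n))

/-- every edge of the periodic multigraph has two ends (a loop has two equal ends) -/
def TwoEnds {B E : Type} {d : ℕ} (inc : B → Fin d → E × ℤ) : Prop :=
  ∀ e, Nat.card {q : B × Fin d // (inc q.1 q.2).1 = e} = 2

/-- The multigraph with the incidences `inc` has no loops and no parallel edges. -/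
def IsSimple {V E : Type} {d : ℕ} (inc : V → Fin d → E) : Prop :=
  (∀ v, Function.Injective (inc v)) ∧
    ∀ v w i i' j j', v ≠ w → inc v i = inc w j → inc v i' = inc w j' → i = i'

/-- The graph of the multigraph with the incidences `inc`: two different vertices are adjacent if they
have a common edge. -/
def toGraph {V E : Type} {d : ℕ} (inc : V → Fin d → E) : SimpleGraph V :=
  SimpleGraph.fromRel fun v w => ∃ i j, inc v i = inc w j

/-- The Alon-Tarsi condition for the `d`-regular simple graph `G`: for an enumeration `inc v` of the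
`d` edges at every vertex `v` the signed number is not `0` (it changes at most its sign if the
enumerations are changed). -/
def AlonTarsi {V : Type} (G : SimpleGraph V) (d : ℕ) : Prop :=
  ∃ inc : V → Fin d → G.edgeSet,
    ((∀ v, Function.Injective (inc v)) ∧
      ∀ v (e : G.edgeSet), v ∈ (e : Sym2 V) ↔ ∃ i, inc v i = e) ∧ signedNumber inc ≠ 0

/-- The `n`-fold cyclic cover of the graph `G` with the voltages `α v w = - α w v`: the edge `vw` is
covered by the edges joining `(v, x)` and `(w, x + α v w)`. -/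
def cyclicCover {V : Type} (G : SimpleGraph V) (α : V → V → ℤ) (n : ℕ) :
    SimpleGraph (V × ZMod n) :=
  SimpleGraph.fromRel fun x y => G.Adj x.1 y.1 ∧ y.2 = x.2 + ((α x.1 y.1 : ℤ) : ZMod n)

/-- The circulant graph on `ℤ/n` in which `x` is joined to `x + s` and `x - s`, `s ∈ S`. -/
def circulant (S : Finset ℕ) (n : ℕ) : SimpleGraph (ZMod n) :=
  SimpleGraph.circulantGraph ((fun s : ℕ => (s : ZMod n)) '' (S : Set ℕ))

/-! ### Transfer -/

open Pool.Agent.K4H93.CY

theorem mapSign_eq {d : ℕ} (f : Fin d → Fin d) :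
    mapSign f = Pool.Agent.W426.LE.sg (Equiv.refl (Fin d)) f := by
  classical
  unfold mapSign
  by_cases h : Function.Bijective f
  · rw [dif_pos h, Pool.Agent.W426.LE.sg_of_bij _ _ h]
    have hs' : ∀ (i1 i2 : DecidableEq (Fin d)) (τ τ' : Equiv.Perm (Fin d)), τ = τ' →
        ((@Equiv.Perm.sign _ i1 _ τ : ℤˣ) : ℤ) = ((@Equiv.Perm.sign _ i2 _ τ' : ℤˣ) : ℤ) :=
      fun i1 i2 τ τ' h => by rw [Subsingleton.elim i1 i2, h]
    exact hs' _ _ _ _ (Equiv.ext fun _ => rfl)
  · rw [dif_neg h, Pool.Agent.W426.LE.sg_of_not _ _ h]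

theorem signed_eq {V E : Type} {d : ℕ} (inc : V → Fin d → E) : signedNumber inc = sN inc := by
  unfold signedNumber sN
  simp only [mapSign_eq]

theorem alonTarsi_iff {V : Type} (G : SimpleGraph V) (d : ℕ) : AlonTarsi G d ↔ ATC G d := by
  unfold AlonTarsi ATC Enum
  simp only [signed_eq]

theorem holds_of {V : Type} [Finite V] [Nonempty V] {d : ℕ} (hd : 1 ≤ d) (G : SimpleGraph V)
    (hdeg : ∃ v, d ≤ (G.neighborSet v).ncard) (h : ATC G d) : HoldsFor G d := by
  classical
  have := Fintype.ofFinite V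
  have hE := EL_of_ATC G h
  refine ⟨?_, ?_⟩
  · obtain ⟨v, hv⟩ := hdeg
    refine fun k => Pool.Agent.W426.LE.EL.lec G d hE ?_ k
    refine Pool.Agent.W426.LE.EL.deg G d hd v ?_
    rw [← SimpleGraph.card_neighborSet_eq_degree]
    rwa [Set.ncard_eq_toFinset_card', Set.toFinset_card] at hv
  · intro W G' φ hφ hG hc k
    exact Pool.Agent.W426.LE.EL.lec G' d (Pool.Agent.W426.LE.EL.mono G' G φ hφ hG d hE) hc k

/-- in the regular case the degree follows from the enumeration -/
theorem deg_of {V : Type} [Finite V] {d : ℕ} (G : SimpleGraph V) (inc : V → Fin d → G.edgeSet)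
    (h : Enum G inc) (v : V) : d ≤ (G.neighborSet v).ncard := by
  classical
  let f : Fin d → V := fun i => Sym2.Mem.other ((h.2 v (inc v i)).2 ⟨i, rfl⟩)
  have hf : ∀ i, s(v, f i) = (inc v i : Sym2 V) := fun i => Sym2.other_spec _
  have hinj : Function.Injective f := by
    intro i j hij
    apply h.1 v
    apply Subtype.ext
    rw [← hf i, ← hf j, hij]
  have hmem : Set.range f ⊆ G.neighborSet v := by
    rintro _ ⟨i, rfl⟩
    rw [SimpleGraph.mem_neighborSet, ← SimpleGraph.mem_edgeSet, hf i]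
    exact (inc v i).2
  have h1 := Set.ncard_le_ncard hmem (Set.toFinite _)
  rwa [← Set.image_univ, Set.ncard_image_of_injective _ hinj, Set.ncard_univ,
    Nat.card_eq_fintype_card, Fintype.card_fin] at h1

theorem holds_of_ATC {V : Type} [Finite V] [Nonempty V] {d : ℕ} (hd : 1 ≤ d) (G : SimpleGraph V)
    (h : ATC G d) : HoldsFor G d := by
  obtain ⟨inc, h1, -⟩ := id h
  exact holds_of hd G ⟨Classical.arbitrary V, deg_of G inc h1 _⟩ h

/-- existence of enumerations -/
theorem exists_enum {V : Type} [Finite V] {d : ℕ} (G : SimpleGraph V)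
    (hdeg : ∀ v, (G.neighborSet v).ncard = d) : ∃ inc : V → Fin d → G.edgeSet, Enum G inc := by
  have hc : ∀ v, Nonempty (Fin d ≃ G.neighborSet v) := by
    intro v
    rw [← Finite.card_eq, ← hdeg v, Nat.card_eq_fintype_card, Fintype.card_fin]
    rfl
  let l : ∀ v, Fin d ≃ G.neighborSet v := fun v => (hc v).some
  refine ⟨fun v i => ⟨s(v, (l v i : V)), (l v i).2⟩, ?_, ?_⟩
  · intro v i j hij
    have h1 : s(v, (l v i : V)) = s(v, (l v j : V)) := congrArg Subtype.val hij
    exact (l v).injective (Subtype.ext (Sym2.congr_right.1 h1))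
  · rintro v ⟨e, he⟩
    constructor
    · intro hv
      obtain ⟨w, rfl⟩ := Sym2.mem_iff_exists.1 hv
      refine ⟨(l v).symm ⟨w, he⟩, ?_⟩
      apply Subtype.ext
      show s(v, (l v ((l v).symm ⟨w, he⟩) : V)) = s(v, w)
      rw [Equiv.apply_symm_apply]
    · rintro ⟨i, hi⟩
      rw [← hi]
      exact Sym2.mem_mk_left _ _

theorem sN_NN {B E : Type} [Finite B] [Finite E] {d : ℕ} (inc : B → Fin d → E × ℤ) :
    ∃ (_ : Fintype B) (_ : Fintype E), ∀ (n : ℕ) [NeZero n],
      sN (qinc inc n) = Pool.Agent.W426.LE.NN (Equiv.refl (Fin d)) (qinc inc n) := by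
  let _ := Fintype.ofFinite B
  let _ := Fintype.ofFinite E
  exact ⟨inferInstance, inferInstance, fun n _ => sN_eq _⟩

theorem sN_sml {B E : Type} [Finite B] [Finite E] {d : ℕ} (inc : B → Fin d → E × ℤ) :
    ∃ L : ℕ, 1 ≤ L ∧ ∀ n₀, 1 ≤ n₀ → sN (qinc inc n₀) ≠ 0 →
      ∃ N : ℕ, ∀ n, N ≤ n → 1 ≤ n → n ≡ n₀ [MOD L] → sN (qinc inc n) ≠ 0 := by
  obtain ⟨i1, i2, h⟩ := sN_NN inc
  obtain ⟨L, hL, hs⟩ := NN_sml (Equiv.refl (Fin d)) inc
  refine ⟨L, hL, fun n₀ hn₀ hne => ?_⟩
  have : NeZero n₀ := ⟨by omega⟩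
  rw [h n₀] at hne
  obtain ⟨N, hN⟩ := hs n₀ hne
  refine ⟨N, fun n hn hn1 hmod => ?_⟩
  have : NeZero n := ⟨by omega⟩
  rw [h n]
  exact hN n hn hmod

theorem sN_progression {B E : Type} [Finite B] [Finite E] {d : ℕ} (inc : B → Fin d → E × ℤ)
    (n₀ : ℕ) (hn₀ : 1 ≤ n₀) (hne : sN (qinc inc n₀) ≠ 0) :
    ∃ M : ℕ, 1 ≤ M ∧ ∀ n, 1 ≤ n → n ≡ n₀ [MOD M] → sN (qinc inc n) ≠ 0 := by
  obtain ⟨i1, i2, h⟩ := sN_NN inc
  have : NeZero n₀ := ⟨by omega⟩
  rw [h n₀] at hne
  obtain ⟨M, hM, hs⟩ := NN_progression (Equiv.refl (Fin d)) inc n₀ hne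
  refine ⟨M, hM, fun n hn hmod => ?_⟩
  have : NeZero n := ⟨by omega⟩
  rw [h n]
  exact hs n hmod

/-- **Periodic multigraphs.** Let `H` be a periodic `d`-regular multigraph.
(1) For every prime `p` there is a period `M` prime to `p` such that for all `n₀, n ≥ 1` and all `k`
with `n ≡ p ^ k n₀` modulo `M` the signed numbers of `H_n` and `H_{n₀}` are congruent modulo `p`.
(2) There is `L ≥ 1` such that, whenever the signed number of `H_{n₀}` is not `0`, the signed number of
`H_n` is not `0` for all but finitely many `n ≡ n₀` modulo `L`.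
(3) If the signed number of `H_{n₀}` is not `0` there is `M ≥ 1` such that the signed number of `H_n`
is not `0` for all `n ≥ 1` with `n ≡ n₀` modulo `M`.
(4) If the signed number of `H_n` is not `0` the edges of `H_n` can be coloured properly from all lists
of `d` colours, and the conjecture holds for `H_n` and its subgraphs of chromatic index `d` if `H_n` is
a simple graph; this is the case for all large `n` if `H = H_0` is simple.
**Covers.** (5) Let `G` be a finite `d`-regular simple graph, `α` integer voltages, `n₀ ≥ 1`. If the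
`n₀`-fold cyclic cover satisfies the Alon-Tarsi condition then so do the `n`-fold cyclic covers for all
`n ≡ n₀` modulo some `M`, and the conjecture holds for them; for `n₀ = 1` this is the condition for `G`.
(6) The conjecture holds for the `n`-fold cyclic covers of the complete graphs with `p + 1` and with
`2 p` vertices, `p` an odd prime, with arbitrary voltages, for all `n ≡ 1` modulo some `M`.
**Circulants.** (7) Let `S` be a nonempty finite set of positive integers without multiples of `4`.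
There is `M ≥ 1` such that the conjecture holds for the circulant graph on `ℤ/n` with the connection set
`± S` for all large `n ≡ 4` modulo `M`.
**Odd cycles.** (8) Let `G` be a finite `d`-regular simple graph. If the Cartesian product of `G` with one
odd cycle satisfies the Alon-Tarsi condition then so do the products with all but finitely many cycles,
and the conjecture holds for them. -/
theorem result :
    (∀ (B E : Type) [Finite B] [Finite E] (d : ℕ) (inc : B → Fin d → E × ℤ), TwoEnds inc →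
      (∀ p : ℕ, p.Prime → ∃ M : ℕ, 1 ≤ M ∧ M.Coprime p ∧ ∀ k n₀ n : ℕ, 1 ≤ n₀ → 1 ≤ n →
        n ≡ p ^ k * n₀ [MOD M] →
          (p : ℤ) ∣ signedNumber (quotientInc inc n) - signedNumber (quotientInc inc n₀)) ∧
      (∃ L : ℕ, 1 ≤ L ∧ ∀ n₀ : ℕ, 1 ≤ n₀ → signedNumber (quotientInc inc n₀) ≠ 0 →
        {n : ℕ | n ≡ n₀ [MOD L] ∧ signedNumber (quotientInc inc n) = 0}.Finite) ∧
      (∀ n₀ : ℕ, 1 ≤ n₀ → signedNumber (quotientInc inc n₀) ≠ 0 → ∃ M : ℕ, 1 ≤ M ∧
        ∀ n : ℕ, 1 ≤ n → n ≡ n₀ [MOD M] → signedNumber (quotientInc inc n) ≠ 0) ∧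
      (∀ n : ℕ, 1 ≤ n → signedNumber (quotientInc inc n) ≠ 0 →
        (∀ L : E × ZMod n → Finset ℕ, (∀ e, d ≤ (L e).card) →
          ∃ f : E × ZMod n → ℕ, (∀ e, f e ∈ L e) ∧
            ∀ v, Function.Injective fun i => f (quotientInc inc n v i)) ∧
        (Nonempty B → 1 ≤ d → IsSimple (quotientInc inc n) →
          HoldsFor (toGraph (quotientInc inc n)) d)) ∧
      (IsSimple (quotientInc inc 0) → ∃ N : ℕ, ∀ n, N ≤ n → IsSimple (quotientInc inc n))) ∧
    (∀ (V : Type) [Finite V] [Nonempty V] (d : ℕ) (G : SimpleGraph V), 1 ≤ d →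
      (∀ v, (G.neighborSet v).ncard = d) →
      (∀ α : V → V → ℤ, (∀ v w, α v w = - α w v) →
        (AlonTarsi G d ↔ AlonTarsi (cyclicCover G α 1) d) ∧
        ∀ n₀ : ℕ, 1 ≤ n₀ → AlonTarsi (cyclicCover G α n₀) d → ∃ M : ℕ, 1 ≤ M ∧
          ∀ n : ℕ, 1 ≤ n → n ≡ n₀ [MOD M] →
            AlonTarsi (cyclicCover G α n) d ∧ HoldsFor (cyclicCover G α n) d) ∧
      (∀ m : ℕ, 3 ≤ m → Odd m → AlonTarsi (G.boxProd (SimpleGraph.cycleGraph m)) (d + 2) →
        ∃ N : ℕ, ∀ n, N ≤ n → AlonTarsi (G.boxProd (SimpleGraph.cycleGraph n)) (d + 2) ∧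
          HoldsFor (G.boxProd (SimpleGraph.cycleGraph n)) (d + 2))) ∧
    (∀ p : ℕ, p.Prime → p ≠ 2 → ∀ (V : Type) [Finite V],
      (Nat.card V = p + 1 ∨ Nat.card V = 2 * p) → ∀ α : V → V → ℤ, (∀ v w, α v w = - α w v) →
        ∃ M : ℕ, 1 ≤ M ∧ ∀ n : ℕ, 1 ≤ n → n ≡ 1 [MOD M] →
          HoldsFor (cyclicCover (⊤ : SimpleGraph V) α n) (Nat.card V - 1)) ∧
    (∀ S : Finset ℕ, S.Nonempty → (∀ s ∈ S, ¬ 4 ∣ s) → ∃ M N : ℕ, 1 ≤ M ∧
      ∀ n : ℕ, N ≤ n → n ≡ 4 [MOD M] → HoldsFor (circulant S n) (2 * S.card)) := by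
  have hqi : ∀ (B E : Type) (d : ℕ) (inc : B → Fin d → E × ℤ) (n : ℕ),
      quotientInc inc n = qinc inc n := fun _ _ _ _ _ => rfl
  -- covers
  have hcover : ∀ (V : Type) [Finite V] [Nonempty V] (d : ℕ) (G : SimpleGraph V), 1 ≤ d →
      ∀ inc : V → Fin d → G.edgeSet, Enum G inc → ∀ α : V → V → ℤ, (∀ v w, α v w = - α w v) →
      ∀ n₀ : ℕ, 1 ≤ n₀ → ATC (cyclicCover G α n₀) d → ∃ M : ℕ, 1 ≤ M ∧
        ∀ n : ℕ, 1 ≤ n → n ≡ n₀ [MOD M] →
          ATC (cyclicCover G α n) d ∧ HoldsFor (cyclicCover G α n) d := by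
    intro V _ _ d G hd inc henum α hα n₀ hn₀ hAT
    have : NeZero n₀ := ⟨by omega⟩
    have h1 : sN (qinc (cinc G α inc) n₀) ≠ 0 := (cover_ATC G α inc henum hα n₀).1 hAT
    obtain ⟨M, hM, h2⟩ := sN_progression (cinc G α inc) n₀ hn₀ h1
    refine ⟨M, hM, fun n hn hmod => ?_⟩
    have : NeZero n := ⟨by omega⟩
    have h3 : ATC (cyclicCover G α n) d := (cover_ATC G α inc henum hα n).2 (h2 n hn hmod)
    exact ⟨h3, holds_of_ATC hd _ h3⟩
  have hone : ∀ (V : Type) [Finite V] (d : ℕ) (G : SimpleGraph V),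
      ∀ inc : V → Fin d → G.edgeSet, Enum G inc → ∀ α : V → V → ℤ, (∀ v w, α v w = - α w v) →
      (ATC G d ↔ ATC (cyclicCover G α 1) d) := by
    intro V _ d G inc henum α hα
    have h1 : ATC (cyclicCover G α 1) d ↔ sN (qinc (cinc G α inc) 1) ≠ 0 :=
      cover_ATC G α inc henum hα 1
    have h2 : sN (qinc (cinc G α inc) 1) = sN inc := sN_one (cinc G α inc)
    rw [h1, h2]
    constructor
    · rintro ⟨inc', h3, h4⟩
      exact ATC_indep G inc' inc h3 henum h4
    · intro h3
      exact ⟨inc, henum, h3⟩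
  refine ⟨?_, ?_, ?_, ?_⟩
  · intro B E _ _ d inc hE
    simp only [signed_eq, hqi]
    obtain ⟨i1, i2, hNN⟩ := sN_NN inc
    refine ⟨?_, ?_, ?_, ?_, ?_⟩
    · intro p hp
      obtain ⟨M, hM, hcop, h⟩ := NN_period (Equiv.refl (Fin d)) inc p hp
      refine ⟨M, hM, hcop, fun k n₀ n hn₀ hn hmod => ?_⟩
      have : NeZero n₀ := ⟨by omega⟩
      have : NeZero n := ⟨by omega⟩
      rw [hNN n, hNN n₀]
      exact h k n₀ n hmod
    · obtain ⟨L, hL, h⟩ := sN_sml inc
      refine ⟨L, hL, fun n₀ hn₀ hne => ?_⟩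
      obtain ⟨N, hN⟩ := h n₀ hn₀ hne
      refine (Set.finite_Iio (N + 1)).subset ?_
      rintro n ⟨h1, h2⟩
      by_contra hn
      rw [Set.mem_Iio, not_lt] at hn
      exact hN n (by omega) (by omega) h1 h2
    · intro n₀ hn₀ hne
      exact sN_progression inc n₀ hn₀ hne
    · intro n hn hne
      have : NeZero n := ⟨by omega⟩
      rw [hNN n] at hne
      have hends := qinc_ends inc hE n
      refine ⟨fun L hL => ?_, fun hB hd hs => ?_⟩
      · exact crit (Equiv.refl (Fin d)) (qinc inc n) hends hne L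
          (fun e => by rw [Fintype.card_fin]; exact hL e)
      · have h1 : ATC (igraph (qinc inc n)) d :=
          (ATC_iff (Fintype.card_fin d) (Equiv.refl (Fin d)) (qinc inc n) hends hs).2 hne
        exact holds_of_ATC hd (igraph (qinc inc n)) h1
    · intro hs
      exact simple_large inc hs
  · intro V _ _ d G hd hdeg
    obtain ⟨inc, henum⟩ := exists_enum G hdeg
    simp only [alonTarsi_iff]
    refine ⟨fun α hα => ⟨hone V d G inc henum α hα, fun n₀ hn₀ hAT =>
      hcover V d G hd inc henum α hα n₀ hn₀ hAT⟩, fun m hm hodd hAT => ?_⟩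
    obtain ⟨N, hN⟩ := cart_ATC G inc henum m hm hodd hAT
    refine ⟨N + 1, fun n hn => ⟨hN n (by omega), ?_⟩⟩
    have : Nonempty (Fin n) := ⟨⟨0, by omega⟩⟩
    exact holds_of_ATC (by omega) _ (hN n (by omega))
  · intro p hp hp2 V _ hV α hα
    have hp1 := hp.two_le
    have hne : Nonempty V := by
      refine (Nat.card_pos_iff.1 ?_).1
      omega
    have hAT : ATC (⊤ : SimpleGraph V) (Nat.card V - 1) := by
      rcases hV with hV | hV
      · have h1 := ATC_complete p hp hp2 V hV
        rw [hV]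
        exact h1
      · have h1 := ATC_complete2 p hp hp2 V hV
        rw [hV]
        exact h1
    obtain ⟨inc, henum, h0⟩ := id hAT
    obtain ⟨M, hM, h⟩ := hcover V (Nat.card V - 1) ⊤ (by omega) inc henum α hα 1 le_rfl
      ((hone V _ ⊤ inc henum α hα).1 hAT)
    exact ⟨M, hM, fun n hn hmod => (h n hn hmod).2⟩
  · intro S hS h4
    obtain ⟨M, N, hM, h⟩ := circulant_ATC S h4
    refine ⟨M, N + 1, hM, fun n hn hmod => ?_⟩
    have : NeZero n := ⟨by omega⟩
    have h1 := hS.card_pos
    exact holds_of_ATC (by omega) _ (h n (by omega) hmod)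

end Pool.Agent.Results.MP_2f9829_co.CyclicFamilies
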