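import Pool.Agent.K4H93.CY.TorP

/-!
# The list edge colouring conjecture for the 4-regular Cayley graphs of abelian groups

Let `Γ` be a finite abelian group and `S` a connection set for which the Cayley graph is 4-regular
(for example a 4-regular circulant graph, or a quadrangulation of the torus). If the edges can be
coloured with four colours, that is, if the subgroup generated by `S` has even order, then the edges can
be coloured from all lists of four colours. In the bipartite case this is Galvin's theorem. In all other
cases all edge colourings with four colours have the same sign: the colours are identified with the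
field with four elements, and the parity of the number of the vertices with a negative sign is computed
with potentials of the colourings. So the Alon-Tarsi condition is fulfilled.
-/

set_option autoImplicit false

namespace Pool.Agent.Results.MP_2f9829_co.QuarticCayley

/-- The list edge colouring conjecture for the single graph `G`, in the form of the frozen statement
`S07911`: for every `k`, the edges of `G` can be properly coloured with `k` colours if and only if
`G` has a proper edge colouring from every list assignment with lists of at least `k` colours. -/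
def ListEdgeConjectureFor {V : Type} (G : SimpleGraph V) : Prop :=
  ∀ k : ℕ, G.lineGraph.Colorable k ↔
    ∀ L : G.edgeSet → Finset ℕ, (∀ e, k ≤ (L e).card) →
      ∃ f : G.edgeSet → ℕ, (∀ e, f e ∈ L e) ∧
        ∀ e e', G.lineGraph.Adj e e' → f e ≠ f e'

/-- The conjecture holds for `H` and for all graphs isomorphic to a subgraph of `H` whose edges
cannot be properly coloured with `d - 1` colours. -/
def HoldsFor {V : Type} (H : SimpleGraph V) (d : ℕ) : Prop :=
  ListEdgeConjectureFor H ∧
    ∀ (W : Type) (G : SimpleGraph W) (φ : W → V), Function.Injective φ →
      (∀ u v, G.Adj u v → H.Adj (φ u) (φ v)) → ¬ G.lineGraph.Colorable (d - 1) →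
      ListEdgeConjectureFor G

/-- The Cayley graph of the abelian group `Γ` with the connection set `S ∪ (-S)`, without loops. -/
def Cayley {Γ : Type} [AddCommGroup Γ] (S : Set Γ) : SimpleGraph Γ :=
  SimpleGraph.fromRel fun u v => u - v ∈ S

/-- `x` is a proper colouring of the edges of `G` with `d` colours. -/
def Proper {V : Type} (G : SimpleGraph V) {d : ℕ} (x : G.edgeSet → Fin d) : Prop :=
  ∀ e e', G.lineGraph.Adj e e' → x e ≠ x e'

/-- All proper colourings of the edges of the `d`-regular graph `G` with `d` colours have the same sign:
if `x` and `y` are two such colourings and `π v` is a permutation of the colours which maps the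
`x`-colours of the edges at `v` to their `y`-colours, for every vertex `v`, then the product of the signs
of the permutations `π v` is `1`. -/
def SameSign {V : Type} (G : SimpleGraph V) (d : ℕ) : Prop :=
  ∀ x y : G.edgeSet → Fin d, Proper G x → Proper G y → ∀ π : V → Equiv.Perm (Fin d),
    (∀ v (e : G.edgeSet), v ∈ (e : Sym2 V) → y e = π v (x e)) →
      ∏ᶠ v, Equiv.Perm.sign (π v) = 1

open Pool.Agent.K4H93.CY

theorem cayley_eq {Γ : Type} [AddCommGroup Γ] (S : Set Γ) :
    Cayley S = SimpleGraph.circulantGraph S := rfl

theorem holds_of_EL {V : Type} [Finite V] [Nonempty V] {d : ℕ} (hd : 1 ≤ d) (G : SimpleGraph V)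
    (hdeg : ∀ v, (G.neighborSet v).ncard = d) (hE : Pool.Agent.W426.LE.EL.EL G d) : HoldsFor G d := by
  classical
  have := Fintype.ofFinite V
  refine ⟨?_, ?_⟩
  · obtain ⟨v⟩ := ‹Nonempty V›
    refine fun k => Pool.Agent.W426.LE.EL.lec G d hE ?_ k
    refine Pool.Agent.W426.LE.EL.deg G d hd v ?_
    rw [← SimpleGraph.card_neighborSet_eq_degree]
    have hv := (hdeg v).ge
    rwa [Set.ncard_eq_toFinset_card', Set.toFinset_card] at hv
  · intro W G' φ hφ hG hc k
    exact Pool.Agent.W426.LE.EL.lec G' d (Pool.Agent.W426.LE.EL.mono G' G φ hφ hG d hE) hc k

/-- Let `Γ` be a finite abelian group and `S` a subset for which the Cayley graph is 4-regular.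
(1) The edges of the Cayley graph can be properly coloured with four colours if and only if the subgroup
generated by `S` has even order.
(2) If this is the case then the list edge colouring conjecture holds for the Cayley graph, and for all
graphs isomorphic to a subgraph whose edges cannot be coloured with three colours.
(3) If the Cayley graph is connected, of even order and not bipartite then it has proper edge colourings
with four colours and all of them have the same sign. -/
theorem result : ∀ (Γ : Type) [AddCommGroup Γ] [Finite Γ] (S : Set Γ),
    (∀ v, ((Cayley S).neighborSet v).ncard = 4) →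
    ((Cayley S).lineGraph.Colorable 4 ↔ Even (Nat.card (AddSubgroup.closure S))) ∧
    ((Cayley S).lineGraph.Colorable 4 → HoldsFor (Cayley S) 4) ∧
    (AddSubgroup.closure S = ⊤ → Even (Nat.card Γ) → ¬ (Cayley S).Colorable 2 →
      (∃ x : (Cayley S).edgeSet → Fin 4, Proper (Cayley S) x) ∧ SameSign (Cayley S) 4) := by
  intro Γ _ _ S hdeg
  rw [cayley_eq] at hdeg ⊢
  have hcol : ∀ V : Type, ∀ G : SimpleGraph V, Pool.Agent.W426.LE.EL.EL G 4 →
      G.lineGraph.Colorable 4 := by
    intro V G h
    obtain ⟨x, hx⟩ := exists_proper G 4 h
    exact ⟨SimpleGraph.Coloring.mk x (fun {e e'} h => hx e e' h)⟩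
  have h1 : (SimpleGraph.circulantGraph S).lineGraph.Colorable 4 ↔
      Even (Nat.card (AddSubgroup.closure S)) :=
    ⟨even_of_colorable S hdeg, fun h => hcol _ _ (cayley_EL S hdeg h)⟩
  refine ⟨h1, fun h => holds_of_EL (by norm_num) _ hdeg (cayley_EL S hdeg (h1.1 h)), ?_⟩
  intro hgen heven hbip
  rcases gen_main S hgen heven (hdeg 0) with ⟨side, h⟩ | ⟨h2, h3⟩
  · exfalso
    apply hbip
    refine ⟨SimpleGraph.Coloring.mk (fun v => if side v = true then (1 : Fin 2) else 0) ?_⟩
    intro v w hvw heq
    have h4 := h v w hvw
    cases hv : side v <;> cases hw : side w <;> simp [hv, hw] at h4 heq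
  · exact ⟨exists_proper _ 4 (EL_of_ATC _ h2), h3⟩

end Pool.Agent.Results.MP_2f9829_co.QuarticCayley
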