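import Pool.Agent.K4H76.LR2.Main

/-!
# The list edge-colouring conjecture for all sparse random graphs with independent edges

There is an absolute constant `β > 0` such that every random graph on `n` vertices whose edges are
independent and have probabilities at most `n ^ (β - 1)`, and otherwise arbitrary, satisfies the
list edge-colouring conjecture with probability tending to 1 (uniformly over all choices of the
edge probabilities), and its list chromatic index is its maximum degree. This includes the binomial
random graphs `G(n, p)` with `n p ≤ n ^ β`, sparse stochastic block models, random graphs with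
given expected degrees and the random subgraphs of every graph.
-/

set_option autoImplicit false

namespace Pool.Agent.Results.MP_2f9829_co.SparseRandomGraphs

/-- The random graph on `Fin n` in which every pair `e` is an edge with probability `q e`, all
pairs being independent. `prob q P` is the probability that it has the property `P`. -/
noncomputable def prob {n : ℕ} (q : {e : Sym2 (Fin n) // ¬ e.IsDiag} → ℝ)
    (P : SimpleGraph (Fin n) → Prop) : ℝ := by
  classical exact ∑ G : SimpleGraph (Fin n), if P G then
    (∏ e : {e : Sym2 (Fin n) // ¬ e.IsDiag}, if e.1 ∈ G.edgeSet then q e else 1 - q e) else 0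

/-- The edges of `G` can be properly coloured from all lists of at least `k` colours. -/
def EdgeChoosable {V : Type} (G : SimpleGraph V) (k : ℕ) : Prop :=
  ∀ L : G.edgeSet → Finset ℕ, (∀ e, k ≤ (L e).card) →
    ∃ f : G.edgeSet → ℕ, (∀ e, f e ∈ L e) ∧ ∀ e e', G.lineGraph.Adj e e' → f e ≠ f e'

/-- The list edge-colouring conjecture for the graph `G`: for every `k`, the edges can be properly
coloured with `k` colours if and only if they can be properly coloured from all lists of at least
`k` colours. -/
def ListEdge {V : Type} (G : SimpleGraph V) : Prop :=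
  ∀ k : ℕ, G.lineGraph.Colorable k ↔ EdgeChoosable G k

/-- There is an absolute constant `β > 0` such that for every `ε > 0`, all large `n` and all
edge probabilities `q e ≤ n ^ (β - 1)`, with probability at least `1 - ε` the random graph with
independent edges of probabilities `q e` satisfies the list edge-colouring conjecture, and lists
of `Δ(G)` colours suffice. -/
theorem result : ∃ β : ℝ, 0 < β ∧ ∀ ε : ℝ, 0 < ε → ∃ N : ℕ, ∀ n : ℕ, N ≤ n →
    ∀ q : {e : Sym2 (Fin n) // ¬ e.IsDiag} → ℝ,
    (∀ e, 0 ≤ q e) → (∀ e, q e ≤ 1) → (∀ e, q e ≤ (n : ℝ) ^ (β - 1)) →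
    1 - ε ≤ prob q (fun G : SimpleGraph (Fin n) => ListEdge G ∧
      ∀ D : ℕ, (∀ v, (G.neighborSet v).ncard ≤ D) → EdgeChoosable G D) := by
  classical
  obtain ⟨β, hβ, h⟩ := Pool.Agent.K4H76.LR2.main
  refine ⟨β, hβ, ?_⟩
  intro ε hε
  obtain ⟨N, hN⟩ := h ε hε
  refine ⟨max 1 N, ?_⟩
  intro n hn q hq0 hq1 hqn
  have h1 := hN n ((le_max_right _ _).trans hn) q hq0 hq1 hqn
  have h2 := Pool.Agent.K4H76.LR2.prob_eq n q (fun G : SimpleGraph (Fin n) => ListEdge G ∧
      ∀ D : ℕ, (∀ v, (G.neighborSet v).ncard ≤ D) → EdgeChoosable G D)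
  have h3 : prob q (fun G : SimpleGraph (Fin n) => ListEdge G ∧
      ∀ D : ℕ, (∀ v, (G.neighborSet v).ncard ≤ D) → EdgeChoosable G D) =
      Pool.Agent.K4H76.LR.Pr (Pool.Agent.K4H76.LR2.wq (ι := Pool.Agent.K4H76.LR.Ed n) q)
        (fun ω => ListEdge (Pool.Agent.K4H76.LR.Gr ω) ∧
          ∀ D : ℕ, (∀ v, ((Pool.Agent.K4H76.LR.Gr ω).neighborSet v).ncard ≤ D) →
            EdgeChoosable (Pool.Agent.K4H76.LR.Gr ω) D) := by
    rw [← h2]
    unfold prob
    congr!
  rw [h3]
  refine h1.trans (Pool.Agent.K4H76.LR.Pr_mono
    (Pool.Agent.K4H76.LR2.wq_wt q hq0 hq1) ?_)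
  intro ω hω
  exact Pool.Agent.K4H76.LR.concl ((le_max_left _ _).trans hn) _ hω

end Pool.Agent.Results.MP_2f9829_co.SparseRandomGraphs
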